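import Pool.Agent.Q50.DR.Defs2
import Pool.Agent.Q50.DR.Dim

open CategoryTheory AlgebraicGeometry

universe u w

namespace Pool.Agent.Results.MP_cbf1af_ag.PeriodsOfTheSquare

open Pool.Agent.H914
open Pool.Agent.Y121.AHS (Comparison)
open Pool.Agent.Y133.Half (pw)
open Pool.Agent.Q50.MTC (HodgeDecomposition IsHodge Mem)
open Pool.Agent.Q50.DR

variable {k : Type u} [Field k] {𝒱 : VarClass k} {ops : CycleOps 𝒱}
  {W D : WeilCohomology.{u, 0} ops} [Algebra W.K ℂ] [Algebra D.K ℂ]

/-- **If the space spanned by the periods of `X × X` has the dimension predicted by the period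
conjecture**, and the Hodge classes of codimension `2 dim X` on `X ^ 4` are de Rham-Betti classes,
then on all powers of `X` the Hodge classes and the de Rham-Betti classes which are killed by the
space `𝔷` are the same. -/
theorem result (T : HodgeDecomposition W) (C : Comparison W D ℂ) (hC : C.s = RingEquiv.refl ℂ)
    [IsAlgClosed D.K] (X : 𝒱.Obj)
    (h4 : ∀ c, IsHodge T (pw X 3) (2 * X.dim) c → IsDRB C (pw X 3) (2 * X.dim) c)
    (hdim : dimEnd (CommHodge (W.gr (pw X 1)) (T.h (pw X 1))) ≤
      dimSpan D.K (periods C (pw X 1))) (n j : ℕ) (c : W.H (pw X n))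
    (hc : Mem (W.gr (pw X n) (2 * j)) c)
    (hz : ∀ Z, InCentre T X Z → ActsBy W X Z n c 0) :
    IsHodge T (pw X n) j c ↔ IsDRB C (pw X n) j c :=
  main2 T C hC X h4 hdim n j c hc hz

end Pool.Agent.Results.MP_cbf1af_ag.PeriodsOfTheSquare
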