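import Pool.Agent.Q138.PS.VF
import Pool.Agent.Results.MP_cbf1af_ag.HypergeometricTorsors

/-!
# Torsors of periods of hypergeometric motives at `z = 1 / t`, `t` close to `α P(n)`

Let `q ≥ 2` and let `𝒞` be a countable set of complex numbers. Outside a set of real numbers of Hausdorff dimension at most
`q / (q + 1 / (q 2 ^ (q - 1)))` (that is `8 / 9` for `q = 2`) every `α > 0` has the following property. There is `η > 0` such that
for ALL `m ≥ 1`, ALL rational numbers `β_1, …, β_m` which are not integers, ALL number fields `K ⊂ ℂ`, ALL invertible matrices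
`C₀` (the periods of a de Rham-Betti object `M_0` over `K`) and ALL invertible `2m × 2m` matrices `Ω` (the periods of the limit
motive) with entries in `𝒞` there is `κ > 0` such that for all large `N` and ALL integral polynomials `P` of degree `q` with
positive leading coefficient and coefficients of size at most `N ^ η`: for all but `N ^ (1 - κ)` of the `n ≤ N`, for EVERY integer
`t ≥ 2` with `|t - ⌊α P(n)⌋| ≤ N ^ κ` and the object `M = M_0 ⊕ ℚ(-1) ⊕ K(t) ⊕ M_t` (`K(t)` the Kummer motive of `t`, `M_t` the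
hypergeometric object at `z = 1 / t` with the period matrix `(Y(t) Ω)ᵀ`): every `K`-subtorsor which contains the period matrix of
`M` is stable under `G_a × Sp`; and if the form on the Betti side is `(2πi)^w` times a matrix over `K`, the subtorsors which
respect the structure are fibre products, in particular the smallest one, which for `M_0 = 0` is the torsor predicted by the
period conjecture.
-/

set_option autoImplicit false

namespace Pool.Agent.Results.MP_cbf1af_ag.TorsorsAlongRealMultiples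

open Finset Filter Topology
open Pool.Agent.Q138.PS
open HypergeometricTorsors (Stable FibreProducts)

/-- `t ≥ 2` and the conclusion fails for `M_0 ⊕ ℚ(-1) ⊕ K(t) ⊕ M_t` -/
def Fails (K : Subfield ℂ) {r m : ℕ} (C₀ : Matrix (Fin r) (Fin r) ℂ) (β : Fin m → ℚ)
    (Ω : Matrix (Fin (2 * m)) (Fin (2 * m)) ℂ) (t : ℕ) : Prop :=
  2 ≤ t ∧ ¬ (Stable K (k := 1) (m := fun _ => m) C₀ (fun _ => β) (fun _ => Ω) (fun _ => t) ∧
    FibreProducts K (k := 1) (m := fun _ => m) C₀ (fun _ => β) (fun _ => Ω) fun _ => t)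

theorem few (K : Subfield ℂ) (hK : FiniteDimensional ℚ K) {r m : ℕ} (hm : 1 ≤ m) (C₀ : Matrix (Fin r) (Fin r) ℂ)
    (hC₀ : IsUnit C₀) (β : Fin m → ℚ) (hβ : ∀ j, ∀ a : ℤ, β j ≠ a) (Ω : Matrix (Fin (2 * m)) (Fin (2 * m)) ℂ)
    (hΩ : IsUnit Ω) : ∃ c C : ℝ, 0 < c ∧ ∀ Y : ℕ, 1 ≤ Y → cn (Fails K C₀ β Ω) Y ≤ C * (Y : ℝ) ^ (1 - c) := by
  obtain ⟨c, C, hc, h⟩ := HypergeometricTorsors.result 1 (fun _ => m) (fun _ => hm) (fun _ => β) (fun _ => hβ)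
    (Module.finrank ℚ K) r
  refine ⟨min c 1, 2 * |C|, lt_min hc one_pos, fun Y hY => ?_⟩
  have h1 := h K hK le_rfl C₀ hC₀ (fun _ => Ω) (fun _ => hΩ) (fun _ => 1) Y (fun _ => le_rfl) hY
  refine le_trans (cn_of_tuples _ _ _ (tup_finite (1 + Y) _ ?_) ?_) (h1.trans ?_)
  · rintro t ⟨ht, -⟩
    exact (ht 0).2
  · rintro t - ht2 ⟨ht3, hbad⟩
    exact ⟨fun _ => ⟨show 1 < t by omega, show t ≤ 1 + Y by omega⟩, hbad⟩
  · rw [Fin.sum_univ_one, Nat.sub_self, pow_zero, mul_one]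
    have hY1 : (1 : ℝ) ≤ Y := by exact_mod_cast hY
    have hY0 : (0 : ℝ) < Y := by linarith
    refine le_trans ?_ (win_bound (c := c) (abs_nonneg C) Y hY)
    have h3 : (0 : ℝ) ≤ (Y : ℝ) / (((1 : ℕ) : ℝ) + Y) ^ c := by positivity
    have h4 : C ≤ |C| := le_abs_self C
    have h5 : C * (1 + (Y : ℝ) / (((1 : ℕ) : ℝ) + Y) ^ c) ≤ |C| * (1 + (Y : ℝ) / (((1 : ℕ) : ℝ) + Y) ^ c) := by
      gcongr
    have h6 : |C| * (1 + (Y : ℝ) / (((1 : ℕ) : ℝ) + Y) ^ c) ≤ |C| * (1 + (Y : ℝ) / (((0 : ℕ) : ℝ) + Y) ^ c) := by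
      have h7 : (0 : ℝ) < ((0 : ℕ) : ℝ) + Y := by
        push_cast
        linarith
      gcongr
      norm_num
    exact h5.trans h6

/-- **Theorem.** -/
theorem result (q : ℕ) (hq : 2 ≤ q) (𝒞 : Set ℂ) (h𝒞 : 𝒞.Countable) :
    ∃ E : Set ℝ, dimH E ≤ ENNReal.ofReal (q / (q + 1 / ((q : ℝ) * 2 ^ (q - 1)))) ∧ ∀ α : ℝ, 0 < α → α ∉ E →
      ∃ η : ℝ, 0 < η ∧ ∀ m : ℕ, 1 ≤ m → ∀ β : Fin m → ℚ, (∀ j, ∀ a : ℤ, β j ≠ a) →
      ∀ K : Subfield ℂ, FiniteDimensional ℚ K →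
      ∀ (r : ℕ) (C₀ : Matrix (Fin r) (Fin r) ℂ), IsUnit C₀ → (∀ a b, C₀ a b ∈ 𝒞) →
      ∀ Ω : Matrix (Fin (2 * m)) (Fin (2 * m)) ℂ, IsUnit Ω → (∀ a b, Ω a b ∈ 𝒞) →
      ∃ κ : ℝ, 0 < κ ∧ ∀ᶠ N : ℕ in atTop, ∀ P : Polynomial ℤ, P.natDegree = q → 0 < P.leadingCoeff →
        (∀ j, |((P.coeff j : ℤ) : ℝ)| ≤ (N : ℝ) ^ η) →
        (badW (Fails K C₀ β Ω) ⌊(N : ℝ) ^ κ⌋₊ α P N : ℝ) ≤ (N : ℝ) ^ (1 - κ) := by
  classical
  have hC : Countable {x : ℂ // x ∈ 𝒞} := h𝒞.to_subtype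
  have hK := countS
  obtain ⟨E, hE, hg⟩ := exc_bad (ι := {K : Subfield ℂ // FiniteDimensional ℚ K} ×
    (Σ r : ℕ, Fin r → Fin r → {x : ℂ // x ∈ 𝒞}) ×
    (Σ m : ℕ, (Fin m → ℚ) × (Fin (2 * m) → Fin (2 * m) → {x : ℂ // x ∈ 𝒞}))) q hq
    (fun j => Fails j.1.1 (Matrix.of fun a b => (j.2.1.2 a b : ℂ)) j.2.2.2.1
      (Matrix.of fun a b => (j.2.2.2.2 a b : ℂ)))
  refine ⟨E, hE, fun α hα hαE => ?_⟩
  obtain ⟨η, hη, h1⟩ := hg α hα hαE
  refine ⟨η, hη, fun m hm β hβ K hKf r C₀ hC₀ hC₀C Ω hΩ hΩC => ?_⟩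
  obtain ⟨c, C, hc, h2⟩ := few K hKf hm C₀ hC₀ β hβ Ω hΩ
  exact h1 (⟨K, hKf⟩, ⟨r, fun a b => ⟨C₀ a b, hC₀C a b⟩⟩, ⟨m, β, fun a b => ⟨Ω a b, hΩC a b⟩⟩) C c hc h2

end Pool.Agent.Results.MP_cbf1af_ag.TorsorsAlongRealMultiples
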