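import Pool.Agent.Q138.PS.WC
import Pool.Agent.Y890.HE.Main

/-!
# The periods of products of hyperelliptic curves at the points of number fields close to a given configuration of branch points

Let `n i` be even numbers (`i` in a finite nonempty set). For a configuration `e` of branch points `e i r`, `r ≤ n i`, with
increasing real parts, let `pm n e i` be the period matrix of `y² = ∏ (x - e i r)`. The period conjecture says that all relations
between the periods (and `π`) over the field of definition of `e` are those of the torsor of `e` in general.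

For each sequence of complex numbers `ξ` and `T` let `Exceptional` be the set of the configurations `e` over a number field
`K ⊂ ℂ`, of height at most `T`, of norm at most `ω T` and of distance at least `1 / ω T` from the complement of `Conf n`, at which
some relation of degree at most `ω T` between the periods and the `ξ_a`, `a < ω T` (or between the periods and the powers of `π`),
with coefficients in the integers of `K` of size at most `T ^ ω T`, does not hold on the torsor.

There is `ω → ∞` such that outside a set of `z` of HAUSDORFF DIMENSION ZERO every configuration `z ∈ ℂ ^ d` (`d = ∑ (n i + 1)`)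
has the property: for all number fields `K ⊂ ℂ` and all `ξ` in a given countable set of sequences there is `θ > 0` such that for
all large `T` all configurations `e` over `K` of height at most `T` with `|e_j - z_j| ≤ T ^ (-θ)` for all `j` are generic. For
fixed `θ > 0` and number fields of degree at most `m` the set of exceptional `z` has dimension at most `2 m (d - 1) / θ`.
-/

set_option autoImplicit false

namespace Pool.Agent.Results.MP_cbf1af_ag.TorsorsNearGivenPoints

open Filter NumberField Pool.Agent Pool.Agent.Y890.MV Pool.Agent.Y890.HE Pool.Agent.Q138.PS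

section
variable {ι : Type} [Fintype ι] [DecidableEq ι]

/-- extension of a family of coefficients by zero -/
noncomputable def ext {R σ : Type} [Zero R] {k : ℕ} (k' : ℕ) (c : (σ → Fin (k + 1)) → Fin k → R) :
    (σ → Fin (k' + 1)) → Fin k' → R := by
  classical
  exact fun l a => if h : (∀ y, (l y : ℕ) < k + 1) ∧ (a : ℕ) < k then c (fun y => ⟨l y, h.1 y⟩) ⟨a, h.2⟩ else 0

theorem poly_ext (n : ι → ℕ) {k k' : ℕ} (hk : k ≤ k') {K : Type} [Field K] [NumberField K] (io : K →+* ℂ)
    (c : ((Σ i, Fin (n i) × Fin (n i)) → Fin (k + 1)) → Fin k → 𝓞 K) (w : ℕ → ℂ)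
    (Y : ∀ i, Matrix (Fin (n i)) (Fin (n i)) ℂ) :
    poly n (fun l a => io ((ext k' c l a : 𝓞 K) : K)) (fun a : Fin k' => w a) Y = poly n (fun l a => io (c l a : K)) (fun a => w a) Y := by
  classical
  unfold poly
  symm
  refine Fintype.sum_of_injective (fun l y => Fin.castLE (by omega) (l y)) ?_ _ _ ?_ ?_
  · intro l l' h
    funext y
    exact Fin.castLE_injective (by omega) (congrFun h y)
  · intro l hl
    have h1 : ¬ ∀ y, (l y : ℕ) < k + 1 := fun h => hl ⟨fun y => ⟨l y, h y⟩, by
      funext y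
      exact Fin.ext rfl⟩
    have h2 : ∀ a, ext k' c l a = 0 := fun a => dif_neg fun h => h1 h.1
    simp [h2]
  · intro l
    congr 1
    symm
    refine (Fintype.sum_of_injective (Fin.castLE hk) (Fin.castLE_injective hk) _ _ ?_ ?_).symm
    · intro a ha
      have h1 : ¬ (a : ℕ) < k := fun h => ha ⟨⟨a, h⟩, Fin.ext rfl⟩
      have h2 : ext k' c (fun y => Fin.castLE (by omega) (l y)) a = 0 := dif_neg fun h => h1 h.2
      beta_reduce
      rw [h2]
      simp
    · intro a
      have h2 : ext k' c (fun y => Fin.castLE (by omega) (l y)) (Fin.castLE hk a) = c l a := by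
        unfold ext
        rw [dif_pos ⟨fun y => (l y).2, a.2⟩]
        rfl
      beta_reduce
      rw [h2]
      rfl

theorem generic_mono (n : ι → ℕ) {k k' : ℕ} (hk : k ≤ k') {T T' : ℝ} (hT : 1 ≤ T) (hTT : T ≤ T') {K : Type} [Field K]
    [NumberField K] (io : K →+* ℂ) (ξ : ℕ → ℂ) (e : (Σ i, Fin (n i + 1)) → ℂ)
    (h : Generic n k' K io (fun a => ξ a) T' e) : Generic n k K io (fun a => ξ a) T e := by
  intro c hc
  have hb : T ^ k ≤ T' ^ k' := (pow_le_pow_left₀ (by linarith) hTT k).trans (pow_le_pow_right₀ (hT.trans hTT) hk)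
  obtain ⟨h1, h2⟩ := h (ext k' c) (by
    intro l a φ
    unfold ext
    split_ifs with hh
    · exact (hc _ _ φ).trans hb
    · simp only [map_zero, norm_zero]
      exact pow_nonneg (by linarith) _)
  simp only [poly_ext n hk io c ξ] at h1
  have hpi := fun Y => poly_ext n hk io c (fun a => (Real.pi : ℂ) ^ a) Y
  have hpp := fun (p : ℂ) Y => poly_ext n hk io c (fun a => p ^ a) Y
  simp only [hpi] at h2
  refine ⟨h1, fun h3 p hp => ?_⟩
  have h4 := h2 h3 p hp
  rwa [hpp] at h4

end

/-- **Theorem.** -/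
theorem result {ι : Type} [Fintype ι] [DecidableEq ι] [Nonempty ι] (n : ι → ℕ) (hn : ∀ i, Even (n i)) :
    ∃ ω : ℝ → ℕ, Tendsto ω atTop atTop ∧ Monotone ω ∧ ∀ Ξ : Set (ℕ → ℂ), Ξ.Countable →
      (∀ θ : ℝ, 0 < θ → ∀ m : ℕ, ∃ Z : Set ((Σ i, Fin (n i + 1)) → ℂ),
        dimH Z ≤ ENNReal.ofReal (2 * m * (Fintype.card (Σ i, Fin (n i + 1)) - 1 : ℕ) / θ) ∧
        ∀ z, z ∉ Z → ∀ (K : IntermediateField ℚ ℂ) [NumberField K], Module.finrank ℚ K ≤ m → ∀ ξ ∈ Ξ,
          ∀ᶠ T : ℝ in atTop, ∀ e ∈ Exceptional n (ω T) K (algebraMap K ℂ) (fun a => ξ a) T,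
            ∃ j, T ^ (-θ) < ‖((e j : K) : ℂ) - z j‖) ∧
      ∃ Z : Set ((Σ i, Fin (n i + 1)) → ℂ), dimH Z = 0 ∧
        ∀ z, z ∉ Z → ∀ (K : IntermediateField ℚ ℂ) [NumberField K], ∀ ξ ∈ Ξ, ∃ θ : ℝ, 0 < θ ∧
          ∀ᶠ T : ℝ in atTop, ∀ e ∈ Exceptional n (ω T) K (algebraMap K ℂ) (fun a => ξ a) T,
            ∃ j, T ^ (-θ) < ‖((e j : K) : ℂ) - z j‖ := by
  obtain ⟨ω, T₀, hω, hωm, h⟩ := Pool.Agent.Y890.HE.main n hn
  refine ⟨ω, hω, hωm, fun Ξ hΞ => ?_⟩
  have hc := hΞ.to_subtype
  have hin : ∀ k k' : ℕ, 0 < k → k ≤ k' → InnerM (Conf n) k ⊆ InnerM (Conf n) k' := by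
    intro k k' hk hkk z hz
    refine ⟨hz.1.trans (by exact_mod_cast hkk), subset_trans (Metric.ball_subset_ball ?_) hz.2⟩
    exact inv_anti₀ (by exact_mod_cast hk) (by exact_mod_cast hkk)
  have hnr := fun ξ : ℕ → ℂ => near_omega (X := Σ i, Fin (n i + 1)) (Fintype.card (Σ i, Fin (n i + 1)) - 1)
    (fun F _ _ io T => Exceptional n (ω T) F io (fun a => ξ a) T) (fun F _ _ T => {x : F | Y120.HtLe F T x})
    (by
      rintro F _ _ T x ⟨a, b, hb, ha', hb', rfl⟩
      exact ⟨a, b, hb, fun φ => ⟨(norm_le_pi_norm (NumberField.canonicalEmbedding F (a : F)) φ).trans ha',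
        (norm_le_pi_norm (NumberField.canonicalEmbedding F (b : F)) φ).trans hb'⟩, rfl⟩)
    ω hω T₀ (fun T hT F _ _ hF io => ((h T hT).2 F hF io _).2)
    (by
      intro F _ _ io
      filter_upwards [eventually_ge_atTop T₀, eventually_ge_atTop 1] with T hT hT1
      intro T' hT' e
      rintro ⟨h1, h2, h3⟩
      refine ⟨fun j => ?_, hin _ _ (h T hT).1 (hωm hT') h2, fun h4 => h3 ?_⟩
      · obtain ⟨a, b, hb, ha', hb', he⟩ := h1 j
        exact ⟨a, b, hb, ha'.trans hT', hb'.trans hT', he⟩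
      · exact generic_mono n (hωm hT') hT1 hT' io ξ _ h4)
  constructor
  · intro θ hθ m
    choose Z hZ hz using fun ξ : Ξ => (hnr ξ.1).1 θ hθ m
    refine ⟨⋃ ξ, Z ξ, ?_, ?_⟩
    · rw [dimH_iUnion]
      exact iSup_le hZ
    · intro z hzZ K _ hK ξ hξ
      exact hz ⟨ξ, hξ⟩ z (fun h1 => hzZ (Set.mem_iUnion.2 ⟨_, h1⟩)) K hK
  · choose Z hZ hz using fun ξ : Ξ => (hnr ξ.1).2
    refine ⟨⋃ ξ, Z ξ, ?_, ?_⟩
    · rw [dimH_iUnion]
      exact le_antisymm (iSup_le fun ξ => (hZ ξ).le) bot_le
    · intro z hzZ K _ ξ hξ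
      exact hz ⟨ξ, hξ⟩ z (fun h1 => hzZ (Set.mem_iUnion.2 ⟨_, h1⟩)) K

end Pool.Agent.Results.MP_cbf1af_ag.TorsorsNearGivenPoints
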